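import Pool.Agent.H84.GL.Basic

/-!
# Moment generating function of the horizontal exit part
-/

open MeasureTheory ProbabilityTheory
open scoped ENNReal

namespace Pool.Agent.H7.GL

open Pool.Agent.H84.GL Pool.Agent.H99.NS

/-- Peeling off the first `k0` coordinates of an i.i.d. geometric sequence. -/
theorem peel (h_SH1 : T_SH1) (α : ℝ) (f : ℕ → ℝ≥0∞)
    (hadd : ∀ m n, f (m + n) = f m * f n) (h0 : f 0 = 1) (k0 : ℕ) :
    ∀ F : (ℕ → ℕ) → ℝ≥0∞, Measurable F →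
    ∫⁻ I, f (∑ i ∈ Finset.range k0, I i) * F (fun n => I (n + k0)) ∂(P1 α) =
      (∫⁻ k, f k ∂(geo α)) ^ k0 * ∫⁻ I, F I ∂(P1 α) := by
  induction k0 with
  | zero =>
    intro F hF
    simp [h0]
  | succ k0 ih =>
    intro F hF
    have hm1 : Measurable (fun x : ℕ → ℕ => (x 0, fun n => x (n+1))) := by fun_prop
    have hH : Measurable (fun y : ℕ → ℕ =>
        f (∑ i ∈ Finset.range k0, y i) * F (fun n => y (n + k0))) := by
      apply Measurable.mul
      · exact (measurable_nat f).comp (by fun_prop)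
      · exact hF.comp (by fun_prop)
    have hg : Measurable (fun p : ℕ × (ℕ → ℕ) =>
        f p.1 * (f (∑ i ∈ Finset.range k0, p.2 i) * F (fun n => p.2 (n + k0)))) := by
      apply Measurable.mul
      · exact (measurable_nat f).comp measurable_fst
      · exact hH.comp measurable_snd
    have e1 : ∫⁻ I, f (∑ i ∈ Finset.range (k0 + 1), I i) * F (fun n => I (n + (k0 + 1))) ∂(P1 α)
        = ∫⁻ I, (fun p : ℕ × (ℕ → ℕ) =>
        f p.1 * (f (∑ i ∈ Finset.range k0, p.2 i) * F (fun n => p.2 (n + k0))))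
          ((fun x : ℕ → ℕ => (x 0, fun n => x (n+1))) I) ∂(P1 α) := by
      apply lintegral_congr
      intro I
      simp only
      rw [Finset.sum_range_succ', add_comm, hadd, mul_assoc]
      have e2 : (fun n => I (n + (k0 + 1))) = (fun n => I (n + k0 + 1)) := by
        funext n; rfl
      rw [e2]
    rw [e1, ← lintegral_map hg hm1, h_SH1 α, lintegral_prod _ hg.aemeasurable]
    simp only
    have e3 : ∀ k : ℕ, ∫⁻ y, f k * (f (∑ i ∈ Finset.range k0, y i) * F (fun n => y (n + k0)))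
        ∂(P1 α) = f k * ∫⁻ y, (f (∑ i ∈ Finset.range k0, y i) * F (fun n => y (n + k0)))
        ∂(P1 α) := fun k => lintegral_const_mul _ hH
    simp only [e3]
    rw [lintegral_mul_const _ (measurable_nat f), ih F hF, pow_succ]
    ring

theorem pf_GHM (h_GEM : T_GEM) (h_SH1 : T_SH1) (h_MOP : T_MOP) (h_MGF : T_MGF)
    (h_EXI : T_EXI) (h_EXS : T_EXS) : T_GHM := by
  intro q α α₁ α₂ hq hq1 hα hαα hqα₁ hα₁₂ hα₂ k0 a b hk0
  have hα₁pos : 0 < α₁ := lt_trans hq hqα₁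
  have hα₁1 : α₁ < 1 := lt_trans hα₁₂ hα₂
  have hα₂pos : 0 < α₂ := lt_trans hα₁pos hα₁₂
  have hqα₂ : q < α₂ := lt_trans hqα₁ hα₁₂
  have hr1 : 1 < α₂ / α₁ := (one_lt_div hα₁pos).2 hα₁₂
  have hr0 : 0 ≤ α₂ / α₁ := by positivity
  have hα1 : α < 1 := lt_of_le_of_lt hαα hα₁1
  have hrα : α₂ / α₁ * α < 1 := by
    have h1 : α₂ / α₁ * α ≤ α₂ := by
      rw [div_mul_eq_mul_div, div_le_iff₀ hα₁pos]
      exact mul_le_mul_of_nonneg_left hαα hα₂pos.le
    linarith
  obtain ⟨f, hf⟩ : ∃ f : ℕ → ℝ≥0∞, f = fun n => ENNReal.ofReal ((α₂ / α₁) ^ n) := ⟨_, rfl⟩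
  have e0 : ∀ n : ℕ, ENNReal.ofReal ((α₂ / α₁) ^ n) = f n := fun n => by rw [hf]
  simp only [e0]
  have hfm : Monotone f := by
    intro m n hmn
    rw [hf]
    exact ENNReal.ofReal_le_ofReal (pow_le_pow_right₀ hr1.le hmn)
  have hfadd : ∀ m n, f (m + n) = f m * f n := by
    intro m n
    simp only [hf]
    rw [pow_add, ENNReal.ofReal_mul (by positivity)]
  have hf0 : f 0 = 1 := by simp [hf]
  have hfmeas : Measurable f := measurable_nat f
  have hGm : ∀ a b : ℕ, Measurable (fun x : (ℕ → ℕ) × (ℕ × ℕ → ℕ) => f (Gh x.1 x.2 0 a b)) :=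
    fun a b => hfmeas.comp (measurable_Gh 0 a b)
  -- step 1
  have step1 : ∀ a b : ℕ, ∫⁻ x, f (Gh x.1 x.2 0 a b) ∂(PW α₁ q) ≤
      ENNReal.ofReal (((1 - α₁) / (1 - α₂)) ^ (a + 1) *
        ((1 - q / α₂) / (1 - q / α₁)) ^ (b + 1)) := by
    intro a b
    rw [← h_MGF q α₁ α₂ hq hq1 hqα₁ hα₁1 hqα₂ hα₂ (a+1) (b+1)]
    unfold PW PB
    have hGB : Measurable (fun x : (ℕ → ℕ) × (ℕ → ℕ) × (ℕ × ℕ → ℕ) =>
        f (GB x.1 x.2.1 x.2.2 (a+1) (b+1))) := hfmeas.comp (measurable_GB (a+1) (b+1))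
    simp only [e0]
    rw [lintegral_prod _ (hGm a b).aemeasurable, lintegral_prod _ hGB.aemeasurable]
    apply lintegral_mono
    intro I
    simp only
    have hGBI : Measurable (fun y : (ℕ → ℕ) × (ℕ × ℕ → ℕ) =>
        f (GB I y.1 y.2 (a+1) (b+1))) := hGB.comp (measurable_const.prodMk measurable_id)
    rw [lintegral_prod _ hGBI.aemeasurable]
    simp only
    calc ∫⁻ W, f (Gh I W 0 a b) ∂(P2 q)
        = ∫⁻ _J, (∫⁻ W, f (Gh I W 0 a b) ∂(P2 q)) ∂(P1 (q / α₂)) := by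
          rw [lintegral_const, measure_univ, mul_one]
      _ ≤ _ := by
          apply lintegral_mono
          intro J
          apply lintegral_mono
          intro W
          simp only
          rw [h_EXI I J W a b]
          exact hfm (le_max_left _ _)
  -- step 2
  have step2 : ∀ a b : ℕ, ∫⁻ x, f (Gh x.1 x.2 0 a b) ∂(PW α q) ≤
      ENNReal.ofReal (((1 - α₁) / (1 - α₂)) ^ (a + 1) *
        ((1 - q / α₂) / (1 - q / α₁)) ^ (b + 1)) := by
    intro a b
    refine le_trans ?_ (step1 a b)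
    unfold PW
    rw [lintegral_prod_symm _ (hGm a b).aemeasurable, lintegral_prod_symm _ (hGm a b).aemeasurable]
    apply lintegral_mono
    intro W
    simp only
    apply h_MOP α α₁ hα.le hαα hα₁1 (a+1) (fun I => f (Gh I W 0 a b))
    · exact (hGm a b).comp (measurable_id.prodMk measurable_const)
    · intro I I' hI
      have h1 : Gh I W 0 a b ≤ Gh I' W 0 a b := Gh_mono W 0 a b hI
      exact hfm h1
    · intro x y hxy
      have h1 : Gh x W 0 a b = Gh y W 0 a b := Gh_congr x y W 0 a b hxy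
      exact congrArg f h1
  -- step 3
  have hc : ∫⁻ k, f k ∂(geo α) = ENNReal.ofReal ((1 - α) / (1 - α₂ / α₁ * α)) := by
    rw [hf]
    exact h_GEM α (α₂ / α₁) hα.le hα1 hr0 hrα
  have key : ∫⁻ x, f (Gh x.1 x.2 k0 a b) ∂(PW α q) =
      (∫⁻ k, f k ∂(geo α)) ^ k0 * ∫⁻ x, f (Gh x.1 x.2 0 (a - k0) b) ∂(PW α q) := by
    have hGk : Measurable (fun x : (ℕ → ℕ) × (ℕ × ℕ → ℕ) => f (Gh x.1 x.2 k0 a b)) :=
      hfmeas.comp (measurable_Gh k0 a b)
    unfold PW
    rw [lintegral_prod_symm _ hGk.aemeasurable,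
      lintegral_prod_symm _ (hGm (a - k0) b).aemeasurable]
    simp only
    have hPhi : Measurable (fun W : ℕ × ℕ → ℕ =>
        ∫⁻ I, f (Gh I W 0 (a - k0) b) ∂(P1 α)) := by
      exact Measurable.lintegral_prod_left' (hGm (a - k0) b)
    have e1 : ∀ W : ℕ × ℕ → ℕ, ∫⁻ I, f (Gh I W k0 a b) ∂(P1 α) =
        (∫⁻ k, f k ∂(geo α)) ^ k0 * ∫⁻ I, f (Gh I (hs k0 W) 0 (a - k0) b) ∂(P1 α) := by
      intro W
      have hF : Measurable (fun I : ℕ → ℕ => f (Gh I (hs k0 W) 0 (a - k0) b)) :=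
        (hGm (a - k0) b).comp (measurable_id.prodMk measurable_const)
      rw [← peel h_SH1 α f hfadd hf0 k0 _ hF]
      apply lintegral_congr
      intro I
      rw [h_EXS I W k0 a b hk0, hfadd]
    simp only [e1]
    have hPhi2 : Measurable (fun W : ℕ × ℕ → ℕ =>
        ∫⁻ I, f (Gh I (hs k0 W) 0 (a - k0) b) ∂(P1 α)) := hPhi.comp (measurable_hs k0)
    rw [lintegral_const_mul _ hPhi2]
    congr 1
    exact lintegral_hs k0 q (fun W : ℕ × ℕ → ℕ =>
        ∫⁻ I, f (Gh I W 0 (a - k0) b) ∂(P1 α)) hPhi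
  have hfin : ∫⁻ x, f (Gh x.1 x.2 k0 a b) ∂(PW α q) ≤
      ENNReal.ofReal (((1 - α) / (1 - α₂ / α₁ * α)) ^ k0 *
        (((1 - α₁) / (1 - α₂)) ^ (a + 1 - k0) * ((1 - q / α₂) / (1 - q / α₁)) ^ (b + 1))) := by
    have hpos : 0 ≤ (1 - α) / (1 - α₂ / α₁ * α) :=
      div_nonneg (by linarith) (by linarith)
    rw [key, hc, ENNReal.ofReal_mul (pow_nonneg hpos k0), ENNReal.ofReal_pow hpos]
    have e : a + 1 - k0 = a - k0 + 1 := by omega
    rw [e]
    gcongr
    exact step2 (a - k0) b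
  exact hfin

end Pool.Agent.H7.GL
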