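import Pool.Agent.H84.GL.Basic

/-!
# Upper tail of the late exit part with heavy boundary
-/

open MeasureTheory ProbabilityTheory
open scoped ENNReal

namespace Pool.Agent.H7.GL

open Pool.Agent.H84.GL Pool.Agent.H99.NS

theorem pf_GHU (h_GHM : T_GHM) (h_CA2 : T_CA2) (h_CA3 : T_CA3) (h_CA4 : T_CA4) : T_GHU := by
  intro q hq hq1
  obtain ⟨c, C, θ₀, hc, hC, hθ₀, hθ₀1, H⟩ := h_CA2 q hq hq1
  refine ⟨19 * C, θ₀, by positivity, hθ₀, ?_⟩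
  intro k0 a b hab hba hk0 θ z hθ hθθ
  obtain ⟨x, hx⟩ : ∃ x : ℝ, x = ((a + 1 : ℕ) : ℝ) := ⟨_, rfl⟩
  obtain ⟨y, hy⟩ : ∃ y : ℝ, y = ((b + 1 : ℕ) : ℝ) := ⟨_, rfl⟩
  have hxpos : 0 < x := by rw [hx]; positivity
  have hypos : 0 < y := by rw [hy]; positivity
  have hxy : x ≤ 3 * y := by rw [hx, hy]; exact_mod_cast hab
  have hyx : y ≤ 3 * x := by rw [hx, hy]; exact_mod_cast hba
  obtain ⟨H1, H2⟩ := H x y hxpos hypos hxy hyx
  obtain ⟨al, hal⟩ : ∃ al : ℝ, al = AA q x y := ⟨_, rfl⟩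
  rw [← hal] at H1 H2
  rw [← hx, ← hy, ← hal]
  obtain ⟨g, hg⟩ : ∃ g : ℝ, g = gg q x y := ⟨_, rfl⟩
  rw [← hg] at H2 ⊢
  have habs : ∀ s : ℝ, 0 ≤ s → s ≤ 4 * θ₀ → |s| ≤ 4 * θ₀ := fun s h1 h2 => by
    rw [abs_of_nonneg h1]; exact h2
  have hal0 := H1 0 (habs 0 (le_refl 0) (by linarith))
  have halq : q < al := by simpa using hal0.1
  have halpos : 0 < al := lt_trans hq halq
  have h1 := H1 θ (habs θ hθ.le (by linarith))
  have h2 := H1 (2 * θ) (habs (2 * θ) (by linarith) (by linarith))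
  have h3 := H1 (3 * θ) (habs (3 * θ) (by linarith) (by linarith))
  have hE := H2 (2 * θ) (3 * θ) (by linarith) (by linarith) (by linarith)
  have hE2 := hE.2
  obtain ⟨α, hα⟩ : ∃ α : ℝ, α = al * Real.exp θ := ⟨_, rfl⟩
  obtain ⟨α₁, hα₁⟩ : ∃ α₁ : ℝ, α₁ = al * Real.exp (2 * θ) := ⟨_, rfl⟩
  obtain ⟨α₂, hα₂⟩ : ∃ α₂ : ℝ, α₂ = al * Real.exp (3 * θ) := ⟨_, rfl⟩
  have eθ : Real.exp (2 * θ) = Real.exp θ * Real.exp θ := by rw [← Real.exp_add]; congr 1; ring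
  have eθ3 : Real.exp (3 * θ) = Real.exp θ * Real.exp θ * Real.exp θ := by
    rw [← Real.exp_add, ← Real.exp_add]; congr 1; ring
  have hexp1 : 1 < Real.exp θ := Real.one_lt_exp_iff.2 hθ
  have hexp0 : 0 < Real.exp θ := Real.exp_pos θ
  have e1 : α₁ = α * Real.exp θ := by rw [hα₁, hα, eθ]; ring
  have e2 : α₂ = α₁ * Real.exp θ := by rw [hα₂, hα₁, eθ3, eθ]; ring
  have hCA3 := h_CA3 q al (2 * θ) (3 * θ) (a + 1) (b + 1) hq hq1 halpos h2.1 h2.2 h3.1 h3.2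
  rw [← hx, ← hy, ← hα₁, ← hα₂] at hCA3
  rw [← hα] at h1
  rw [← hα₁] at h2
  rw [← hα₂] at h3
  rw [← hα]
  have hαpos : 0 < α := lt_trans hq h1.1
  have hα₁pos : 0 < α₁ := lt_trans hq h2.1
  have hα₂pos : 0 < α₂ := lt_trans hq h3.1
  have hαα : α ≤ α₁ := by rw [e1]; nlinarith
  have hα₁₂ : α₁ < α₂ := by rw [e2]; nlinarith
  have hr : α₂ / α₁ = Real.exp θ := by rw [e2]; field_simp
  have hrα : α₂ / α₁ * α = α₁ := by rw [hr, e1]; ring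
  have hGHM := h_GHM q α α₁ α₂ hq hq1 hαpos hαα h2.1 hα₁₂ h3.2 k0 a b hk0
  rw [hrα, hr] at hGHM
  -- Chernoff
  have hmeas : Measurable (fun x : (ℕ → ℕ) × (ℕ × ℕ → ℕ) => ((Gh x.1 x.2 k0 a b : ℕ) : ℝ)) :=
    (measurable_nat (fun n : ℕ => (n : ℝ))).comp (measurable_Gh k0 a b)
  have hch := chernoff (PW α q)
    (fun x : (ℕ → ℕ) × (ℕ × ℕ → ℕ) => ((Gh x.1 x.2 k0 a b : ℕ) : ℝ)) hmeas θ (g + z) hθ.le
  refine le_trans hch ?_
  have e3 : ∀ n : ℕ, ex (θ * (n : ℝ)) = ENNReal.ofReal (Real.exp θ ^ n) := by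
    intro n
    unfold ex
    rw [← Real.exp_nat_mul]; congr 2; ring
  simp only [e3]
  refine le_trans (mul_le_mul_of_nonneg_left hGHM zero_le) ?_
  -- real computation
  obtain ⟨X, hX⟩ : ∃ X : ℝ, X = (1 - α₁) / (1 - α₂) := ⟨_, rfl⟩
  obtain ⟨Y, hY⟩ : ∃ Y : ℝ, Y = (1 - q / α₂) / (1 - q / α₁) := ⟨_, rfl⟩
  rw [← hX, ← hY] at hCA3 ⊢
  have p0 : 0 < 1 - α := by linarith [h1.2]
  have p1 : 0 < 1 - α₁ := by linarith [h2.2]
  have p2 : 0 < 1 - α₂ := by linarith [h3.2]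
  have hXpos : 0 < X := by rw [hX]; positivity
  have hZ : (1 - α) / (1 - α₁) / X ≤ Real.exp (-(q * θ ^ 2)) := by
    have h4 := h_CA4 α₁ θ hα₁pos hθ.le (by rw [← e2]; exact h3.2)
    have e4 : α₁ * Real.exp (-θ) = α := by
      rw [e1, mul_assoc, ← Real.exp_add]; simp
    rw [e4, ← e2] at h4
    have e5 : (1 - α) / (1 - α₁) / X = (1 - α) * (1 - α₂) / (1 - α₁) ^ 2 := by
      rw [hX]; field_simp
    rw [e5]
    refine le_trans h4 (Real.exp_le_exp.2 ?_)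
    have : q * θ ^ 2 ≤ α₁ * θ ^ 2 := mul_le_mul_of_nonneg_right h2.1.le (by positivity)
    linarith
  have hZ0 : 0 ≤ (1 - α) / (1 - α₁) / X := by positivity
  have hXpow : X ^ (a + 1) = X ^ (a + 1 - k0) * X ^ k0 := by
    rw [← pow_add]; congr 1; omega
  have hprod : ((1 - α) / (1 - α₁)) ^ k0 * (X ^ (a + 1 - k0) * Y ^ (b + 1)) =
      ((1 - α) / (1 - α₁) / X) ^ k0 * (X ^ (a + 1) * Y ^ (b + 1)) := by
    rw [hXpow, div_pow ((1 - α) / (1 - α₁)) X k0]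
    have : X ^ k0 ≠ 0 := (pow_pos hXpos k0).ne'
    field_simp
  rw [hprod, hCA3]
  unfold ex
  rw [← ENNReal.ofReal_mul (Real.exp_pos _).le]
  apply ENNReal.ofReal_le_ofReal
  have hZk : ((1 - α) / (1 - α₁) / X) ^ k0 ≤ Real.exp (-(q * θ ^ 2 * k0)) := by
    have h5 : ((1 - α) / (1 - α₁) / X) ^ k0 ≤ (Real.exp (-(q * θ ^ 2))) ^ k0 :=
      pow_le_pow_left₀ hZ0 hZ k0
    refine le_trans h5 (le_of_eq ?_)
    rw [← Real.exp_nat_mul]; congr 1; ring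
  calc Real.exp (-(θ * (g + z))) * (((1 - α) / (1 - α₁) / X) ^ k0 *
        Real.exp (fl q x y al (3 * θ) - fl q x y al (2 * θ)))
      ≤ Real.exp (-(θ * (g + z))) * (Real.exp (-(q * θ ^ 2 * k0)) *
        Real.exp (fl q x y al (3 * θ) - fl q x y al (2 * θ))) := by
        gcongr
    _ = Real.exp (-(θ * (g + z)) + (-(q * θ ^ 2 * k0) +
        (fl q x y al (3 * θ) - fl q x y al (2 * θ)))) := by
        rw [Real.exp_add, Real.exp_add]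
    _ ≤ Real.exp (-(θ * z) - q * θ ^ 2 * k0 + 19 * C * (a + b + 2) * θ ^ 3) := by
        apply Real.exp_le_exp.2
        have exy : x + y = (a : ℝ) + b + 2 := by rw [hx, hy]; push_cast; ring
        rw [exy] at hE2
        nlinarith [hE2]

end Pool.Agent.H7.GL
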