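import Pool.Agent.H84.GL.Targets3

/-!
# Sharp upper bound for the moment generating function near the diagonal
-/

open MeasureTheory ProbabilityTheory
open scoped ENNReal

namespace Pool.Agent.H7.GL

open Pool.Agent.H84.GL Pool.Agent.H99.NS

/-- Integral of a function of the bulk weights in the boundary model. -/
theorem lintegral_PB_snd (α β q : ℝ) (F : (ℕ × ℕ → ℕ) → ℝ≥0∞) (hF : Measurable F) :
    ∫⁻ x, F x.2.2 ∂(PB α β q) = ∫⁻ W, F W ∂(P2 q) := by
  unfold PB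
  have h1 : Measurable (fun x : (ℕ → ℕ) × (ℕ → ℕ) × (ℕ × ℕ → ℕ) => F x.2.2) :=
    hF.comp (measurable_snd.comp measurable_snd)
  have h2 : Measurable (fun x : (ℕ → ℕ) × (ℕ × ℕ → ℕ) => F x.2) := hF.comp measurable_snd
  rw [lintegral_prod _ h1.aemeasurable]
  simp only
  rw [lintegral_const, measure_univ, mul_one, lintegral_prod _ h2.aemeasurable]
  simp only
  rw [lintegral_const, measure_univ, mul_one]

/-- Value of the generating function as an exponential. -/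
theorem mgf_real (al q lam A B : ℝ) (a b : ℕ) (hq : 0 < q) (hal : 0 < al)
    (h1 : al * Real.exp (lam / 2) < 1) (h2 : q / al * Real.exp (lam / 2) < 1) (hlam : 0 ≤ lam)
    (hA : Real.log ((1 - al * Real.exp (-(lam / 2))) / (1 - al * Real.exp (lam / 2))) ≤ A)
    (hB : Real.log ((1 - q / al * Real.exp (-(lam / 2))) / (1 - q / al * Real.exp (lam / 2))) ≤ B) :
    ((1 - al * Real.exp (-(lam / 2))) / (1 - al * Real.exp (lam / 2))) ^ a *
      ((1 - q / (al * Real.exp (lam / 2))) / (1 - q / (al * Real.exp (-(lam / 2))))) ^ b ≤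
      Real.exp (a * A + b * B) := by
  have he : Real.exp (-(lam / 2)) ≤ Real.exp (lam / 2) := Real.exp_le_exp.2 (by linarith)
  have hp : 0 < Real.exp (lam / 2) := Real.exp_pos _
  have hp' : 0 < Real.exp (-(lam / 2)) := Real.exp_pos _
  have hee : Real.exp (-(lam / 2)) * Real.exp (lam / 2) = 1 := by rw [← Real.exp_add]; simp
  have e1 : q / (al * Real.exp (lam / 2)) = q / al * Real.exp (-(lam / 2)) := by
    rw [Real.exp_neg]; field_simp
  have e2 : q / (al * Real.exp (-(lam / 2))) = q / al * Real.exp (lam / 2) := by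
    rw [Real.exp_neg]; field_simp
  rw [e1, e2]
  have hqal : 0 < q / al := by positivity
  have k1 : 0 < 1 - al * Real.exp (lam / 2) := by linarith
  have k2 : 0 < 1 - q / al * Real.exp (lam / 2) := by linarith
  have k3 : 0 < 1 - al * Real.exp (-(lam / 2)) := by
    have := mul_le_mul_of_nonneg_left he hal.le
    linarith
  have k4 : 0 < 1 - q / al * Real.exp (-(lam / 2)) := by
    have := mul_le_mul_of_nonneg_left he hqal.le
    linarith
  obtain ⟨X, hX⟩ : ∃ X : ℝ, X = (1 - al * Real.exp (-(lam / 2))) / (1 - al * Real.exp (lam / 2)) :=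
    ⟨_, rfl⟩
  obtain ⟨Y, hY⟩ : ∃ Y : ℝ,
    Y = (1 - q / al * Real.exp (-(lam / 2))) / (1 - q / al * Real.exp (lam / 2)) := ⟨_, rfl⟩
  rw [← hX] at hA ⊢
  rw [← hY] at hB ⊢
  have hX0 : 0 < X := by rw [hX]; positivity
  have hY0 : 0 < Y := by rw [hY]; positivity
  have hXA : X ≤ Real.exp A := (Real.log_le_iff_le_exp hX0).1 hA
  have hYB : Y ≤ Real.exp B := (Real.log_le_iff_le_exp hY0).1 hB
  rw [Real.exp_add, Real.exp_nat_mul, Real.exp_nat_mul]
  exact mul_le_mul (pow_le_pow_left₀ hX0.le hXA a) (pow_le_pow_left₀ hY0.le hYB b)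
    (by positivity) (by positivity)

theorem pf_UMS (h_MGF : T_MGF) (h_EXI : T_EXI) (h_PSS : T_PSS) (h_PAR : T_PAR) : T_UMS := by
  intro q ε hq hq1 hε
  obtain ⟨r, hr⟩ : ∃ r : ℝ, r = √q := ⟨_, rfl⟩
  have hr0 : 0 < r := by rw [hr]; exact Real.sqrt_pos.2 hq
  have hrq : r ^ 2 = q := by rw [hr]; exact Real.sq_sqrt hq.le
  have hr1 : r < 1 := by nlinarith
  obtain ⟨δ₁, hδ₁, hP⟩ := h_PSS r ε hr0 hr1 hε
  obtain ⟨K, hK⟩ : ∃ K : ℝ, K = cc r + ε := ⟨_, rfl⟩
  have hcf : cf q = cc r := by unfold cf; rw [hr]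
  have hK0 : 0 < K := by
    rw [hK]
    have : 0 ≤ cc r := by
      unfold cc
      have : 0 < 1 - r := by linarith
      positivity
    linarith
  obtain ⟨D, hD⟩ : ∃ D : ℝ, D = (1 + r) / (1 - r) := ⟨_, rfl⟩
  have hD0 : 0 < D := by
    rw [hD]
    have : 0 < 1 - r := by linarith
    positivity
  refine ⟨2 * D + 2 * K, min (min (1 / 4) (δ₁ / 2)) ((1 - r) / 4), by positivity, ?_, ?_⟩
  · exact lt_min (lt_min (by norm_num) (by positivity)) (by linarith)
  intro lam hlam0 hlam a b hab hdiff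
  have d1 : min (min (1 / 4) (δ₁ / 2)) ((1 - r) / 4) ≤ 1 / 4 :=
    le_trans (min_le_left _ _) (min_le_left _ _)
  have d2 : min (min (1 / 4) (δ₁ / 2)) ((1 - r) / 4) ≤ δ₁ / 2 :=
    le_trans (min_le_left _ _) (min_le_right _ _)
  have d3 : min (min (1 / 4) (δ₁ / 2)) ((1 - r) / 4) ≤ (1 - r) / 4 := min_le_right _ _
  obtain ⟨δ, hδ⟩ : ∃ δ : ℝ, δ = min (min (1 / 4) (δ₁ / 2)) ((1 - r) / 4) := ⟨_, rfl⟩
  rw [← hδ] at hlam hdiff d1 d2 d3
  obtain ⟨N, hN⟩ : ∃ N : ℝ, N = (a : ℝ) + b := ⟨_, rfl⟩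
  have hN1 : 1 ≤ N := by rw [hN]; exact_mod_cast hab
  have hN0 : 0 < N := by linarith
  obtain ⟨x, hx⟩ : ∃ x : ℝ, x = ((a : ℝ) - b) / N := ⟨_, rfl⟩
  have hxN : x * N = (a : ℝ) - b := by rw [hx]; field_simp
  have hxabs : |x| ≤ δ := by
    rw [hx, abs_div, abs_of_pos hN0, div_le_iff₀ hN0, hN]
    exact hdiff
  have hx1 := (abs_le.1 hxabs).1
  have hx2 := (abs_le.1 hxabs).2
  have hδ0 : 0 ≤ δ := le_trans (abs_nonneg x) hxabs
  obtain ⟨p1, p2, p3⟩ := h_PAR r x N hr0 hr1 (by linarith) (by linarith) hN0.le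
  obtain ⟨k, hk⟩ : ∃ k : ℝ, k = (1 - r) / (1 + r) := ⟨_, rfl⟩
  have hk0 : 0 < k := by
    rw [hk]
    have : 0 < 1 - r := by linarith
    positivity
  have hk1 : k ≤ 1 := by rw [hk, div_le_one (by linarith)]; linarith
  have exk : x * (1 - r) / (1 + r) = x * k := by rw [hk]; ring
  rw [exk, hrq] at p1 p3
  rw [exk] at p2
  obtain ⟨al, hal⟩ : ∃ al : ℝ, al = r * (1 - x * k) := ⟨_, rfl⟩
  rw [← hal] at p1 p2 p3
  have hxk : |x * k| ≤ δ := by
    rw [abs_mul, abs_of_pos hk0]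
    calc |x| * k ≤ |x| * 1 := mul_le_mul_of_nonneg_left hk1 (abs_nonneg x)
      _ ≤ δ := by linarith
  have hxk1 := (abs_le.1 hxk).1
  have hxk2 := (abs_le.1 hxk).2
  have hal0 : 0 < al := lt_trans hq p1
  have hal1 : |al - r| ≤ δ := by
    have : al - r = -(r * (x * k)) := by rw [hal]; ring
    rw [this, abs_neg, abs_mul, abs_of_pos hr0]
    calc r * |x * k| ≤ 1 * |x * k| := mul_le_mul_of_nonneg_right hr1.le (abs_nonneg _)
      _ ≤ δ := by linarith
  have hq2 : |q / al - r| ≤ 2 * δ := by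
    have hne : (1 - x * k) ≠ 0 := by
      have : 0 < 1 - x * k := by linarith
      exact this.ne'
    have hpos : 0 < 1 - x * k := by linarith
    have : q / al - r = r * (x * k) / (1 - x * k) := by
      rw [hal, ← hrq]; field_simp; ring
    rw [this, abs_div, abs_of_pos hpos, div_le_iff₀ hpos, abs_mul, abs_of_pos hr0]
    have h1 : r * |x * k| ≤ δ := by
      calc r * |x * k| ≤ 1 * |x * k| := mul_le_mul_of_nonneg_right hr1.le (abs_nonneg _)
        _ ≤ δ := by linarith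
    have h2 : 1 / 2 ≤ 1 - x * k := by linarith
    nlinarith
  have hlam1 : lam ≤ 1 := by linarith
  obtain ⟨a1, a2, a3⟩ := hP al lam (by linarith) hlam0 (by linarith)
  obtain ⟨b1, b2, b3⟩ := hP (q / al) lam (by linarith) hlam0 (by linarith)
  rw [← hK] at a3 b3
  -- the parameters
  obtain ⟨α₁, hα₁⟩ : ∃ α₁ : ℝ, α₁ = al * Real.exp (-(lam / 2)) := ⟨_, rfl⟩
  obtain ⟨α₂, hα₂⟩ : ∃ α₂ : ℝ, α₂ = al * Real.exp (lam / 2) := ⟨_, rfl⟩
  have hle : α₁ ≤ α₂ := by
    rw [hα₁, hα₂]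
    exact mul_le_mul_of_nonneg_left (Real.exp_le_exp.2 (by linarith)) hal0.le
  have hα₂1 : α₂ < 1 := by rw [hα₂]; exact a2
  have hqα₁ : q < α₁ := by
    rw [hα₁, Real.exp_neg, ← div_eq_mul_inv, lt_div_iff₀ (Real.exp_pos _)]
    have : q / al * Real.exp (lam / 2) * al < 1 * al := mul_lt_mul_of_pos_right b2 hal0
    have e : q / al * Real.exp (lam / 2) * al = q * Real.exp (lam / 2) := by field_simp
    rw [e] at this; linarith
  have hα₁pos : 0 < α₁ := lt_trans hq hqα₁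
  have hratio : α₂ / α₁ = Real.exp lam := by
    rw [hα₁, hα₂]
    have : Real.exp (lam / 2) = Real.exp lam * Real.exp (-(lam / 2)) := by
      rw [← Real.exp_add]; congr 1; ring
    rw [this]
    have h3 : Real.exp (-(lam / 2)) ≠ 0 := (Real.exp_pos _).ne'
    field_simp
  have hmgf := h_MGF q α₁ α₂ hq hq1 hqα₁ (lt_of_le_of_lt hle hα₂1) (lt_of_lt_of_le hqα₁ hle) hα₂1
    (a + 1) (b + 1)
  rw [hratio] at hmgf
  have hF : Measurable (fun W : ℕ × ℕ → ℕ => ex (lam * (LB W a b : ℝ))) := by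
    apply measurable_ex.comp
    apply Measurable.const_mul
    exact (measurable_nat (fun n : ℕ => (n : ℝ))).comp (measurable_LB a b)
  rw [← lintegral_PB_snd α₁ (q / α₂) q _ hF]
  have hstep : ∫⁻ x, ex (lam * (LB x.2.2 a b : ℝ)) ∂(PB α₁ (q / α₂) q) ≤
      ∫⁻ x, ENNReal.ofReal (Real.exp lam ^ (GB x.1 x.2.1 x.2.2 (a+1) (b+1)))
        ∂(PB α₁ (q / α₂) q) := by
    apply lintegral_mono
    intro y
    simp only
    unfold ex
    apply ENNReal.ofReal_le_ofReal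
    rw [← Real.exp_nat_mul]
    apply Real.exp_le_exp.2
    rw [mul_comm]
    apply mul_le_mul_of_nonneg_right _ hlam0
    have h1 : LB y.2.2 a b ≤ Gh y.1 y.2.2 0 a b := LB_le_Gh _ _ _ _
    have h2 : Gh y.1 y.2.2 0 a b ≤ GB y.1 y.2.1 y.2.2 (a+1) (b+1) := by
      rw [h_EXI]; exact le_max_left _ _
    exact_mod_cast le_trans h1 h2
  refine le_trans hstep ?_
  rw [hmgf, hα₁, hα₂]
  unfold ex
  apply ENNReal.ofReal_le_ofReal
  refine le_trans (mgf_real al q lam _ _ (a+1) (b+1) hq hal0 a2 b2 hlam0 a3 b3) ?_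
  apply Real.exp_le_exp.2
  -- final inequality
  obtain ⟨A1, hA1⟩ : ∃ A1 : ℝ, A1 = al / (1 - al) := ⟨_, rfl⟩
  obtain ⟨B1, hB1⟩ : ∃ B1 : ℝ, B1 = q / al / (1 - q / al) := ⟨_, rfl⟩
  have hB1' : q / (al - q) = B1 := by
    rw [hB1]
    have h1 : al - q ≠ 0 := by
      have : 0 < al - q := by linarith
      exact this.ne'
    have h2 : 1 - q / al ≠ 0 := by
      have : q / al < 1 := by rw [div_lt_one hal0]; exact p1
      have : 0 < 1 - q / al := by linarith
      exact this.ne'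
    field_simp
  rw [← hA1, hB1'] at p3
  rw [← hA1, ← hB1]
  have hbd : ∀ β : ℝ, β - r ≤ 2 * δ → β / (1 - β) ≤ D := by
    intro β h1
    have h2 : β ≤ (1 + r) / 2 := by linarith
    have h3 : 0 < 1 - β := by linarith
    have h4 : 0 < 1 - r := by linarith
    rw [hD, div_le_div_iff₀ h3 h4]
    nlinarith
  have hA1D : A1 ≤ D := by
    rw [hA1]; apply hbd
    have := (abs_le.1 hal1).2
    linarith
  have hB1D : B1 ≤ D := by
    rw [hB1]; exact hbd _ (abs_le.1 hq2).2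
  have hpq : (a : ℝ) * A1 + b * B1 ≤ pq q a b := by
    have e1 : (1 + x) / 2 * N = a := by linarith
    have e2 : (1 - x) / 2 * N = b := by linarith
    rw [e1, e2] at p3
    refine le_trans p3 (le_of_eq ?_)
    unfold pq mu sg
    rw [← hr, ← hN, ← hxN]
    have e3 : (x * N) ^ 2 / N = x ^ 2 * N := by field_simp
    have e4 : r / (1 - q) / 2 * (x * N) ^ 2 / N = r / (1 - q) / 2 * ((x * N) ^ 2 / N) := by ring
    rw [e4, e3]; ring
  have hlam3 : lam ^ 3 ≤ lam := by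
    have : lam ^ 2 ≤ 1 := pow_le_one₀ hlam0 hlam1
    calc lam ^ 3 = lam * lam ^ 2 := by ring
      _ ≤ lam * 1 := mul_le_mul_of_nonneg_left this hlam0
      _ = lam := mul_one lam
  rw [hcf, ← hK]
  push_cast
  have i1 : lam * ((a : ℝ) * A1 + b * B1) ≤ lam * pq q a b := mul_le_mul_of_nonneg_left hpq hlam0
  have i2 : lam * (A1 + B1) ≤ lam * (2 * D) := mul_le_mul_of_nonneg_left (by linarith) hlam0
  have i3 : 2 * K * lam ^ 3 ≤ 2 * K * lam := mul_le_mul_of_nonneg_left hlam3 (by positivity)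
  calc ((a : ℝ) + 1) * (lam * A1 + K * lam ^ 3) + ((b : ℝ) + 1) * (lam * B1 + K * lam ^ 3)
      = lam * ((a : ℝ) * A1 + b * B1) + lam * (A1 + B1) + K * ((a : ℝ) + b) * lam ^ 3 +
        2 * K * lam ^ 3 := by ring
    _ ≤ lam * pq q a b + lam * (2 * D) + K * ((a : ℝ) + b) * lam ^ 3 + 2 * K * lam := by linarith
    _ = lam * pq q a b + K * ((a : ℝ) + b) * lam ^ 3 + (2 * D + 2 * K) * lam := by ring

end Pool.Agent.H7.GL
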