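import Pool.Agent.H84.GL.Targets3

/-!
# A window near the corner carries the sharp exponential moment
-/

open MeasureTheory ProbabilityTheory Filter
open scoped ENNReal Topology

namespace Pool.Agent.H7.GL

open Pool.Agent.H84.GL Pool.Agent.H99.NS

/-- Polynomials times decaying exponentials. -/
theorem ev_exp (n : ℕ) (A B η : ℝ) (hB : 0 < B) (hη : 0 < η) :
    ∀ᶠ s : ℝ in atTop, s ^ n * Real.exp (A - B * s) ≤ η := by
  have h1 := (Real.tendsto_pow_mul_exp_neg_atTop_nhds_zero n).comp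
    (tendsto_id.const_mul_atTop hB)
  have h2 := h1.const_mul (Real.exp A * (B ^ n)⁻¹)
  rw [mul_zero] at h2
  have h3 : ∀ᶠ s : ℝ in atTop, Real.exp A * (B ^ n)⁻¹ *
      (((fun x => x ^ n * Real.exp (-x)) ∘ fun x => B * id x) s) < η :=
    h2.eventually (gt_mem_nhds hη)
  filter_upwards [h3] with s hs
  have e : s ^ n * Real.exp (A - B * s) = Real.exp A * (B ^ n)⁻¹ *
      (((fun x => x ^ n * Real.exp (-x)) ∘ fun x => B * id x) s) := by
    simp only [Function.comp, id]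
    rw [mul_pow, sub_eq_add_neg, Real.exp_add]
    have : B ^ n ≠ 0 := (pow_pos hB n).ne'
    field_simp
  rw [e]; exact hs.le

/-- Geometric sums with ratio at most one half. -/
theorem geo_sum (r : ℝ) (h0 : 0 ≤ r) (h1 : r ≤ 1 / 2) (n : ℕ) :
    ∑ j ∈ Finset.range n, r ^ j ≤ 2 := by
  have hr : r < 1 := by linarith
  have h2 : ∑ j ∈ Finset.range n, r ^ j ≤ ∑' j, r ^ j :=
    (summable_geometric_of_lt_one h0 hr).sum_le_tsum _ (fun i _ => pow_nonneg h0 i)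
  rw [tsum_geometric_of_lt_one h0 hr] at h2
  refine le_trans h2 ?_
  rw [inv_le_comm₀ (by linarith) (by norm_num)]
  linarith

/-- The number of small windows. -/
theorem near_sum (n : ℕ) (t x : ℝ) (ht : 0 ≤ t) (hx : 0 ≤ x) :
    ∑ j ∈ Finset.range n, (if (j : ℝ) ≤ t then x else 0) ≤ (t + 1) * x := by
  rw [← Finset.sum_filter, Finset.sum_const, nsmul_eq_mul]
  apply mul_le_mul_of_nonneg_right _ hx
  have h1 : ((Finset.range n).filter (fun j : ℕ => (j : ℝ) ≤ t)) ⊆ Finset.range (⌊t⌋₊ + 1) := by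
    intro j hj
    rw [Finset.mem_filter] at hj
    rw [Finset.mem_range]
    have := Nat.le_floor hj.2
    omega
  have h2 := Finset.card_le_card h1
  rw [Finset.card_range] at h2
  have h3 : (((Finset.range n).filter (fun j : ℕ => (j : ℝ) ≤ t)).card : ℝ) ≤ ⌊t⌋₊ + 1 := by
    exact_mod_cast h2
  have h4 := Nat.floor_le ht
  linarith

/-- Thresholds in `L`. -/
theorem ev_L (ε c C1 C2 : ℝ) (hε : 0 < ε) (hc : 0 < c) (hC1 : 0 < C1) (hC2 : 0 < C2) :
    ∃ L₀ : ℝ, 1 ≤ L₀ ∧ ∀ L, L₀ ≤ L →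
      (ε * L + 1) * (6 * Real.exp (2 * C2 * L ^ 2 + 1 - ε / 4 * L ^ 3)) ≤ 1 / 8 ∧
      12 * Real.exp (2 * C2 * L ^ 2 + 5 * C1 * L + C1 - c * ε ^ 2 / 16 * L ^ 3) ≤ 1 / 8 ∧
      Real.exp (-(c / 8 * L)) ≤ 1 / 2 := by
  have h1 := ev_exp 1 1 (ε / 8) (1 / (48 * (ε + 1))) (by positivity) (by positivity)
  have h2 := ev_exp 0 0 (c * ε ^ 2 / 32) (1 / 96) (by positivity) (by norm_num)
  have h3 := ev_exp 0 0 (c / 8) (1 / 2) (by positivity) (by norm_num)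
  have h4 : ∀ᶠ L : ℝ in atTop, 16 * C2 / ε ≤ L := eventually_ge_atTop _
  have h5 : ∀ᶠ L : ℝ in atTop, 32 * (2 * C2 + 6 * C1) / (c * ε ^ 2) ≤ L := eventually_ge_atTop _
  have h6 : ∀ᶠ L : ℝ in atTop, 1 ≤ L := eventually_ge_atTop _
  have hall : ∀ᶠ L : ℝ in atTop,
      (ε * L + 1) * (6 * Real.exp (2 * C2 * L ^ 2 + 1 - ε / 4 * L ^ 3)) ≤ 1 / 8 ∧
      12 * Real.exp (2 * C2 * L ^ 2 + 5 * C1 * L + C1 - c * ε ^ 2 / 16 * L ^ 3) ≤ 1 / 8 ∧
      Real.exp (-(c / 8 * L)) ≤ 1 / 2 := by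
    filter_upwards [h1, h2, h3, h4, h5, h6] with L k1 k2 k3 k4 k5 k6
    have hL2 : 0 ≤ L ^ 2 := by positivity
    have hL3 : L ≤ L ^ 3 := by nlinarith [mul_nonneg (by linarith : (0:ℝ) ≤ L) (by linarith : (0:ℝ) ≤ L - 1)]
    rw [div_le_iff₀ hε] at k4
    rw [div_le_iff₀ (by positivity)] at k5
    refine ⟨?_, ?_, ?_⟩
    · have e1 : 2 * C2 * L ^ 2 + 1 - ε / 4 * L ^ 3 ≤ 1 - ε / 8 * L := by
        have : 16 * C2 * L ^ 2 ≤ L * ε * L ^ 2 := mul_le_mul_of_nonneg_right k4 hL2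
        nlinarith
      have e2 : ε * L + 1 ≤ (ε + 1) * L := by nlinarith
      calc (ε * L + 1) * (6 * Real.exp (2 * C2 * L ^ 2 + 1 - ε / 4 * L ^ 3))
          ≤ ((ε + 1) * L) * (6 * Real.exp (1 - ε / 8 * L)) := by
            apply mul_le_mul e2 _ (by positivity) (by positivity)
            have := Real.exp_le_exp.2 e1
            linarith
        _ = 6 * (ε + 1) * (L ^ 1 * Real.exp (1 - ε / 8 * L)) := by ring
        _ ≤ 6 * (ε + 1) * (1 / (48 * (ε + 1))) := by gcongr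
        _ = 1 / 8 := by field_simp; norm_num
    · have e1 : 2 * C2 * L ^ 2 + 5 * C1 * L + C1 - c * ε ^ 2 / 16 * L ^ 3 ≤
          0 - c * ε ^ 2 / 32 * L := by
        have q1 : 32 * (2 * C2 + 6 * C1) * L ^ 2 ≤ L * (c * ε ^ 2) * L ^ 2 :=
          mul_le_mul_of_nonneg_right k5 hL2
        have q2 : L ≤ L ^ 2 := by nlinarith
        have q3 : C1 * L ≤ C1 * L ^ 2 := mul_le_mul_of_nonneg_left q2 hC1.le
        have q4 : C1 ≤ C1 * L ^ 2 := by nlinarith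
        have q5 : c * ε ^ 2 * L ≤ c * ε ^ 2 * L ^ 3 := mul_le_mul_of_nonneg_left hL3 (by positivity)
        nlinarith
      have e2 := Real.exp_le_exp.2 e1
      rw [pow_zero, one_mul] at k2
      linarith
    · rw [pow_zero, one_mul] at k3
      have : -(c / 8 * L) = 0 - c / 8 * L := by ring
      rw [this]; exact k3
  obtain ⟨L₀, hL₀⟩ := eventually_atTop.1 hall
  exact ⟨max 1 L₀, le_max_left _ _, fun L hL => hL₀ L (le_trans (le_max_right _ _) hL)⟩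

/-- Thresholds in `a`. -/
theorem ev_a (L A B l0 C2 ε c κ : ℝ) (hl0 : 0 < l0)
    (hε : 0 < ε) (hc : 0 < c) (hB : 0 < B) (hκ : 0 < κ) :
    ∃ a₀ : ℕ, ∀ a : ℕ, a₀ ≤ a → 1 ≤ ((a : ℝ) + 1) ^ ((1:ℝ)/3) ∧
      L ≤ l0 * ((a : ℝ) + 1) ^ ((1:ℝ)/3) ∧
      C2 * (2 * ε * L ^ 4) ≤ ((a : ℝ) + 1) ^ ((1:ℝ)/3) ∧
      2 * C2 * L ≤ c * ε * ((a : ℝ) + 1) ^ ((1:ℝ)/3) ∧
      (((a : ℝ) + 1) ^ ((1:ℝ)/3)) ^ 3 * Real.exp (A - B * ((a : ℝ) + 1) ^ ((1:ℝ)/3)) ≤ 1 / 48 ∧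
      2 * ((a : ℝ) + 1) ^ ((2:ℝ)/3) ≤ κ * ((a : ℝ) + 1) ^ ((3:ℝ)/4) := by
  have ha : Tendsto (fun a : ℕ => (a : ℝ) + 1) atTop atTop :=
    tendsto_atTop_add_const_right _ _ tendsto_natCast_atTop_atTop
  have hs : Tendsto (fun a : ℕ => ((a : ℝ) + 1) ^ ((1:ℝ)/3)) atTop atTop :=
    (tendsto_rpow_atTop (by norm_num)).comp ha
  have ht : Tendsto (fun a : ℕ => ((a : ℝ) + 1) ^ ((1:ℝ)/12)) atTop atTop :=
    (tendsto_rpow_atTop (by norm_num)).comp ha
  have h1 := hs.eventually (eventually_ge_atTop (1:ℝ))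
  have h2 := hs.eventually (eventually_ge_atTop (L / l0))
  have h3 := hs.eventually (eventually_ge_atTop (C2 * (2 * ε * L ^ 4)))
  have h4 := hs.eventually (eventually_ge_atTop (2 * C2 * L / (c * ε)))
  have h5 := hs.eventually (ev_exp 3 A B (1/48) hB (by norm_num))
  have h6 := ht.eventually (eventually_ge_atTop (2 / κ))
  obtain ⟨a₀, h⟩ := eventually_atTop.1 (h1.and (h2.and (h3.and (h4.and (h5.and h6)))))
  refine ⟨a₀, fun a haa => ?_⟩
  obtain ⟨k1, k2, k3, k4, k5, k6⟩ := h a haa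
  refine ⟨k1, ?_, k3, ?_, k5, ?_⟩
  · rw [div_le_iff₀ hl0] at k2
    linarith
  · rw [div_le_iff₀ (by positivity)] at k4
    linarith
  · rw [div_le_iff₀ hκ] at k6
    have hx : (0:ℝ) < (a : ℝ) + 1 := by positivity
    have e : ((a : ℝ) + 1) ^ ((3:ℝ)/4) = ((a : ℝ) + 1) ^ ((2:ℝ)/3) * ((a : ℝ) + 1) ^ ((1:ℝ)/12) := by
      rw [← Real.rpow_add hx]; norm_num
    rw [e]
    have hp : 0 < ((a : ℝ) + 1) ^ ((2:ℝ)/3) := by positivity
    nlinarith

theorem prod_ex (E0 X Y : ℝ) :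
    (6 * ex X) * ex Y = ex E0 * ENNReal.ofReal (6 * Real.exp (X + Y - E0)) := by
  have h6 : (6 : ℝ≥0∞) = ENNReal.ofReal 6 := by norm_num
  unfold ex
  rw [h6, ← ENNReal.ofReal_mul (by norm_num), ← ENNReal.ofReal_mul (by positivity),
    ← ENNReal.ofReal_mul (Real.exp_pos _).le]
  congr 1
  have e : Real.exp E0 * (6 * Real.exp (X + Y - E0)) =
      6 * (Real.exp E0 * Real.exp (X + Y - E0)) := by ring
  have e2 : E0 + (X + Y - E0) = X + Y := by ring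
  rw [e, ← Real.exp_add, e2, Real.exp_add]
  ring

theorem cf_nonneg (q : ℝ) (hq1 : q < 1) : 0 ≤ cf q := by
  unfold cf cc
  have h1 : √q < 1 := by
    rw [Real.sqrt_lt' one_pos]; simpa using hq1
  have h0 : 0 ≤ √q := Real.sqrt_nonneg q
  have h2 : 0 < 1 - √q := by linarith
  positivity

/-- Real inequalities for the middle windows. -/
theorem mid_real (C2 lam J c M t s L ε : ℝ) (j : ℝ) (hC2 : 0 < C2) (hc : 0 < c) (hs0 : 0 < s)
    (hM : M = lam * s) (hMpos : 0 < M) (hMa : L / 2 ≤ M) (hMb : M ≤ L) (hε : 0 < ε)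
    (htJ : J = t * s ^ 2) (hLt : ε * L ≤ t) (hj1 : 1 ≤ j) (hjt : j ≤ t)
    (m4 : 2 * C2 * L ≤ c * ε * s) :
    C2 * lam ^ 3 * J ≤ c / 2 * (M * t ^ 2) ∧ c / 8 * L * j ≤ c / 4 * (M * t ^ 2) ∧
    c * ε ^ 2 / 4 * M * L ^ 2 ≤ c / 4 * (M * t ^ 2) ∧
    2 * (c * ε ^ 2 / 16) * M ^ 3 ≤ c * ε ^ 2 / 8 * M * L ^ 2 ∧
    c * ε ^ 2 / 16 * L ^ 3 ≤ c * ε ^ 2 / 8 * M * L ^ 2 := by
  have hL0 : 0 < L := by linarith
  have ht0 : 0 ≤ t := by linarith
  have hM2L : M ^ 2 ≤ L ^ 2 := pow_le_pow_left₀ hMpos.le hMb 2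
  refine ⟨?_, ?_, ?_, ?_, ?_⟩
  · have r1 : C2 * lam ^ 3 * J * s = C2 * M ^ 2 * (M * t) := by rw [htJ, hM]; ring
    have r4 : c * s * (ε * L) ≤ c * s * t := mul_le_mul_of_nonneg_left hLt (by positivity)
    have r5 : 2 * C2 * L * L ≤ c * ε * s * L := mul_le_mul_of_nonneg_right m4 hL0.le
    have r6 : C2 * M ^ 2 ≤ C2 * L ^ 2 := mul_le_mul_of_nonneg_left hM2L hC2.le
    have r3 : C2 * M ^ 2 ≤ c / 2 * t * s := by
      have e1 : 2 * C2 * L * L = 2 * (C2 * L ^ 2) := by ring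
      have e2 : c * ε * s * L = c * s * (ε * L) := by ring
      have e3 : c / 2 * t * s = (c * s * t) / 2 := by ring
      rw [e1, e2] at r5
      rw [e3]
      linarith
    have r7 : C2 * M ^ 2 * (M * t) ≤ c / 2 * t * s * (M * t) :=
      mul_le_mul_of_nonneg_right r3 (by positivity)
    have r8 : C2 * lam ^ 3 * J * s ≤ c / 2 * (M * t ^ 2) * s := by
      rw [r1]
      have e4 : c / 2 * (M * t ^ 2) * s = c / 2 * t * s * (M * t) := by ring
      rw [e4]; exact r7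
    exact le_of_mul_le_mul_right r8 hs0
  · have r1 : j ≤ t ^ 2 := by
      have : t ≤ t * t := by
        have h1 : 1 ≤ t := le_trans hj1 hjt
        calc t = 1 * t := (one_mul t).symm
          _ ≤ t * t := mul_le_mul_of_nonneg_right h1 ht0
      rw [sq]; linarith
    have r2 : L / 2 * j ≤ M * t ^ 2 := mul_le_mul hMa r1 (by linarith) hMpos.le
    have r3 : c / 4 * (L / 2 * j) ≤ c / 4 * (M * t ^ 2) :=
      mul_le_mul_of_nonneg_left r2 (by positivity)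
    have e : c / 8 * L * j = c / 4 * (L / 2 * j) := by ring
    rw [e]; exact r3
  · have r1 : (ε * L) ^ 2 ≤ t ^ 2 := pow_le_pow_left₀ (by positivity) hLt 2
    have r2 : c / 4 * M * (ε * L) ^ 2 ≤ c / 4 * M * t ^ 2 :=
      mul_le_mul_of_nonneg_left r1 (by positivity)
    have e1 : c * ε ^ 2 / 4 * M * L ^ 2 = c / 4 * M * (ε * L) ^ 2 := by ring
    have e2 : c / 4 * (M * t ^ 2) = c / 4 * M * t ^ 2 := by ring
    rw [e1, e2]; exact r2
  · have r1 : c * ε ^ 2 / 8 * M * M ^ 2 ≤ c * ε ^ 2 / 8 * M * L ^ 2 :=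
      mul_le_mul_of_nonneg_left hM2L (by positivity)
    have e1 : 2 * (c * ε ^ 2 / 16) * M ^ 3 = c * ε ^ 2 / 8 * M * M ^ 2 := by ring
    rw [e1]; exact r1
  · have r1 : c * ε ^ 2 / 8 * L ^ 2 * (L / 2) ≤ c * ε ^ 2 / 8 * L ^ 2 * M :=
      mul_le_mul_of_nonneg_left hMa (by positivity)
    have e1 : c * ε ^ 2 / 16 * L ^ 3 = c * ε ^ 2 / 8 * L ^ 2 * (L / 2) := by ring
    have e2 : c * ε ^ 2 / 8 * M * L ^ 2 = c * ε ^ 2 / 8 * L ^ 2 * M := by ring
    rw [e1, e2]; exact r1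

/-- Real inequality for the far windows. -/
theorem far_real (c3 lam δ J M L s l : ℝ) (hc3 : 0 < c3) (hlam : 0 < lam) (hδ : 0 < δ)
    (hl : 0 < l) (hs1 : 1 ≤ s) (es3 : s ^ 3 = l) (hM : M = lam * s) (hMpos : 0 < M)
    (hMa : L / 2 ≤ M) (hJ : δ * l ≤ J) :
    c3 * (L / 2) * δ ^ 2 * s ≤ c3 * lam * J ^ 2 / l := by
  rw [le_div_iff₀ hl]
  have hs0 : 0 < s := by linarith
  have q1 : (δ * l) ^ 2 ≤ J ^ 2 := pow_le_pow_left₀ (by positivity) hJ 2
  have q2 : c3 * lam * (δ * l) ^ 2 ≤ c3 * lam * J ^ 2 :=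
    mul_le_mul_of_nonneg_left q1 (by positivity)
  refine le_trans ?_ q2
  have q3 : c3 * lam * (δ * l) ^ 2 = c3 * δ ^ 2 * l * (M * s ^ 2) := by
    rw [hM, ← es3]; ring
  rw [q3]
  have q4 : L / 2 * s ≤ M * s ^ 2 := by
    have h1 : s ≤ s ^ 2 := by
      rw [sq]
      calc s = 1 * s := (one_mul s).symm
        _ ≤ s * s := mul_le_mul_of_nonneg_right hs1 hs0.le
    exact mul_le_mul hMa h1 hs0.le hMpos.le
  have q5 : c3 * δ ^ 2 * l * (L / 2 * s) ≤ c3 * δ ^ 2 * l * (M * s ^ 2) :=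
    mul_le_mul_of_nonneg_left q4 (by positivity)
  have e : c3 * (L / 2) * δ ^ 2 * s * l = c3 * δ ^ 2 * l * (L / 2 * s) := by ring
  rw [e]; exact q5

theorem pf_WNS (h_MG2 : T_MG2) (h_WIN : T_WIN) (h_RWM : T_RWM) (h_ELU : T_ELU)
    (h_ELS : T_ELS) : T_WNS := by
  intro q hq hq1 ε hε
  obtain ⟨l1, hl1, hMG⟩ := h_MG2 q hq hq1
  obtain ⟨C2, l2, hC2, hl2, hRW⟩ := h_RWM q hq hq1
  obtain ⟨c3, C3, l3, hc3, hC3, hl3, hEU⟩ := h_ELU q hq hq1
  obtain ⟨c, hc, hES⟩ := h_ELS q hq hq1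
  obtain ⟨C1, δ, hC1, hδ, a1, hES1⟩ := hES (c * ε ^ 2 / 16) (by positivity)
  obtain ⟨L₀, hL₀1, hL₀⟩ := ev_L ε c C1 C2 hε hc hC1 hC2
  refine ⟨L₀, hL₀1, fun L hL => ?_⟩
  obtain ⟨n1, n2, n3⟩ := hL₀ L hL
  have hL1 : 1 ≤ L := le_trans hL₀1 hL
  obtain ⟨A, hA⟩ : ∃ A : ℝ, A = 2 * C2 * L ^ 2 + C2 * L ^ 3 + 5 * C3 * L + C3 * L ^ 3 + C3 :=
    ⟨_, rfl⟩
  obtain ⟨a₀, ha₀⟩ := ev_a L A (c3 * (L / 2) * δ ^ 2) (min (min l1 l2) (min l3 δ)) C2 ε c
    (min 1 δ) (lt_min (lt_min hl1 hl2) (lt_min hl3 hδ)) hε hc (by positivity)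
    (lt_min one_pos hδ)
  refine ⟨max a₀ a1, fun a ha lam hlam1 hlam2 => ?_⟩
  obtain ⟨m1, m2, m3, m4, m5, m6⟩ := ha₀ a (le_trans (le_max_left _ _) ha)
  have ha1 : a1 ≤ a := le_trans (le_max_right _ _) ha
  have hlpos : (0:ℝ) < (a : ℝ) + 1 := by positivity
  have es3 : (((a : ℝ) + 1) ^ ((1:ℝ)/3)) ^ 3 = (a : ℝ) + 1 := by
    rw [← Real.rpow_natCast, ← Real.rpow_mul hlpos.le]; norm_num
  have es2 : ((a : ℝ) + 1) ^ ((2:ℝ)/3) = (((a : ℝ) + 1) ^ ((1:ℝ)/3)) ^ 2 := by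
    rw [← Real.rpow_natCast, ← Real.rpow_mul hlpos.le]; norm_num
  obtain ⟨s, hs⟩ : ∃ s : ℝ, s = ((a : ℝ) + 1) ^ ((1:ℝ)/3) := ⟨_, rfl⟩
  rw [es2] at m6 ⊢
  rw [← hs] at m1 m2 m3 m4 m5 m6 es3 es2 hlam1 hlam2 ⊢
  have hs0 : 0 < s := by linarith
  have hlam0 : 0 < lam := by
    by_contra hneg
    push Not at hneg
    have : lam * s ≤ 0 := mul_nonpos_of_nonpos_of_nonneg hneg hs0.le
    linarith
  have hlamle : lam ≤ min (min l1 l2) (min l3 δ) := by
    have : lam * s ≤ min (min l1 l2) (min l3 δ) * s := le_trans hlam2 m2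
    exact le_of_mul_le_mul_right this hs0
  have hlaml1 : lam ≤ l1 := le_trans hlamle (le_trans (min_le_left _ _) (min_le_left _ _))
  have hlaml2 : lam ≤ l2 := le_trans hlamle (le_trans (min_le_left _ _) (min_le_right _ _))
  have hlaml3 : lam ≤ l3 := le_trans hlamle (le_trans (min_le_right _ _) (min_le_left _ _))
  have hlamδ : lam ≤ δ := le_trans hlamle (le_trans (min_le_right _ _) (min_le_right _ _))
  obtain ⟨M, hM⟩ : ∃ M : ℝ, M = lam * s := ⟨_, rfl⟩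
  have hMpos : 0 < M := by rw [hM]; positivity
  have hMa : L / 2 ≤ M := by rw [hM]; exact hlam1
  have hMb : M ≤ L := by rw [hM]; exact hlam2
  have hM3 : ((a : ℝ) + 1) * lam ^ 3 = M ^ 3 := by rw [← es3, hM]; ring
  have hM2L : M ^ 2 ≤ L ^ 2 := pow_le_pow_left₀ hMpos.le hMb 2
  have hM3L : M ^ 3 ≤ L ^ 3 := pow_le_pow_left₀ hMpos.le hMb 3
  have hM3L' : L ^ 3 / 8 ≤ M ^ 3 := by
    have := pow_le_pow_left₀ (by positivity) hMa 3
    have e : (L / 2) ^ 3 = L ^ 3 / 8 := by ring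
    rw [e] at this; exact this
  -- the window
  obtain ⟨w, hw⟩ : ∃ w : ℕ, w = ⌈s ^ 2⌉₊ := ⟨_, rfl⟩
  have hw1 : s ^ 2 ≤ w := by rw [hw]; exact Nat.le_ceil _
  have hs21 : 1 ≤ s ^ 2 := one_le_pow₀ m1
  have hw2 : (w : ℝ) ≤ 2 * s ^ 2 := by
    have := Nat.ceil_lt_add_one (by positivity : (0:ℝ) ≤ s ^ 2)
    rw [← hw] at this
    linarith
  have hwr : (1 : ℝ) ≤ w := le_trans hs21 hw1
  have hwn : 1 ≤ w := by exact_mod_cast hwr
  have hw34 : (w : ℝ) ≤ ((a : ℝ) + 1) ^ ((3:ℝ)/4) := by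
    refine le_trans hw2 (le_trans m6 ?_)
    have : 0 < ((a : ℝ) + 1) ^ ((3:ℝ)/4) := by positivity
    have h1 : min 1 δ ≤ 1 := min_le_left _ _
    nlinarith
  have hwδ : (w : ℝ) ≤ δ * ((a : ℝ) + 1) ^ ((3:ℝ)/4) := by
    refine le_trans hw2 (le_trans m6 ?_)
    have : 0 < ((a : ℝ) + 1) ^ ((3:ℝ)/4) := by positivity
    exact mul_le_mul_of_nonneg_right (min_le_right _ _) this.le
  by_contra Hcon
  push Not at Hcon
  have Hn : ∀ j : ℕ, (j : ℝ) ≤ ε * L → j * w ≤ a → EL q lam w j a a <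
      ex (2 * ((a : ℝ) + 1) * mu q * lam + (cf q - ε) * (2 * ((a : ℝ) + 1)) * lam ^ 3) :=
    fun j h1 h2 => Hcon j w hwn hw2 h1 h2
  obtain ⟨E0, hE0⟩ : ∃ E0 : ℝ, E0 = 2 * ((a : ℝ) + 1) * (lam * mu q + cf q * lam ^ 3) := ⟨_, rfl⟩
  have hcf : 0 ≤ cf q := cf_nonneg q hq1
  -- bound of the constant in the exponents
  have hwl : (w : ℝ) ^ 2 / ((a : ℝ) + 1) ≤ 4 * s := by
    rw [div_le_iff₀ hlpos, ← es3]
    have : (w : ℝ) ^ 2 ≤ (2 * s ^ 2) ^ 2 := pow_le_pow_left₀ (by positivity) hw2 2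
    nlinarith
  have h5M : lam * ((w : ℝ) ^ 2 / ((a : ℝ) + 1) + s) ≤ 5 * M := by
    rw [hM]
    have : lam * ((w : ℝ) ^ 2 / ((a : ℝ) + 1)) ≤ lam * (4 * s) :=
      mul_le_mul_of_nonneg_left hwl hlam0.le
    linarith
  have hl2w : lam ^ 2 * w ≤ 2 * M ^ 2 := by
    rw [hM]
    have : lam ^ 2 * w ≤ lam ^ 2 * (2 * s ^ 2) := mul_le_mul_of_nonneg_left hw2 (by positivity)
    nlinarith
  have hC2w : C2 * lam ^ 2 * w ≤ 2 * C2 * L ^ 2 := by
    have : C2 * (lam ^ 2 * w) ≤ C2 * (2 * L ^ 2) :=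
      mul_le_mul_of_nonneg_left (by linarith) hC2.le
    linarith
  -- the bounds
  obtain ⟨nr, hnr⟩ : ∃ nr : ℝ, nr = 6 * Real.exp (2 * C2 * L ^ 2 + 1 - ε / 4 * L ^ 3) := ⟨_, rfl⟩
  obtain ⟨G, hG⟩ : ∃ G : ℝ, G = 2 * C2 * L ^ 2 + 5 * C1 * L + C1 - c * ε ^ 2 / 16 * L ^ 3 :=
    ⟨_, rfl⟩
  obtain ⟨fr, hfr⟩ : ∃ fr : ℝ, fr = 6 * Real.exp (A - c3 * (L / 2) * δ ^ 2 * s) := ⟨_, rfl⟩
  have hnr0 : 0 ≤ nr := by rw [hnr]; positivity
  have hfr0 : 0 ≤ fr := by rw [hfr]; positivity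
  let b : ℕ → ℝ := fun j => (if (j : ℝ) ≤ ε * L then nr else 0) +
    6 * Real.exp G * (Real.exp (-(c / 8 * L))) ^ j + fr
  have hb0 : ∀ j, 0 ≤ b j := by
    intro j
    have : (0:ℝ) ≤ (if (j : ℝ) ≤ ε * L then nr else 0) := by split_ifs <;> simp [hnr0]
    have h2 : 0 ≤ 6 * Real.exp G * (Real.exp (-(c / 8 * L))) ^ j := by positivity
    simp only [b]
    linarith
  have key : ∀ j ∈ Finset.range (a / w + 1),
      ES q (√q * Real.exp (-(lam / 2))) lam w j * EL q lam w j a a ≤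
        ex E0 * ENNReal.ofReal (b j) := by
    intro j hj
    have hjw : j * w ≤ a := by
      have := Finset.mem_range.1 hj
      exact (Nat.le_div_iff_mul_le hwn).1 (by omega)
    have hjwr : (j : ℝ) * w ≤ a := by exact_mod_cast hjw
    have hj0 : (0:ℝ) ≤ j := by positivity
    have hJ0 : 0 ≤ (j : ℝ) * w := by positivity
    have hR := hRW lam hlam0 hlaml2 w j hwn
    have hmid0 : 0 ≤ 6 * Real.exp G * (Real.exp (-(c / 8 * L))) ^ j := by positivity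
    by_cases hjn : (j : ℝ) ≤ ε * L
    · -- near windows
      have h1 := (Hn j hjn hjw).le
      refine le_trans (mul_le_mul' hR h1) ?_
      rw [prod_ex E0]
      refine mul_le_mul' le_rfl (ENNReal.ofReal_le_ofReal ?_)
      simp only [b, if_pos hjn]
      have h2 : nr ≤ nr + 6 * Real.exp G * (Real.exp (-(c / 8 * L))) ^ j + fr := by linarith
      refine le_trans ?_ h2
      rw [hnr]
      refine mul_le_mul_of_nonneg_left (Real.exp_le_exp.2 ?_) (by norm_num)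
      have h3 : C2 * lam ^ 3 * (j * w) ≤ 1 := by
        have q1 : (j : ℝ) * w ≤ ε * L * (2 * s ^ 2) :=
          mul_le_mul hjn hw2 (by positivity) (by positivity)
        have q2 : C2 * lam ^ 3 * (j * w) ≤ C2 * lam ^ 3 * (ε * L * (2 * s ^ 2)) :=
          mul_le_mul_of_nonneg_left q1 (by positivity)
        have q3 : C2 * lam ^ 3 * (ε * L * (2 * s ^ 2)) * s = C2 * (2 * ε * L * M ^ 3) := by
          rw [hM]; ring
        have q4 : C2 * (2 * ε * L * M ^ 3) ≤ C2 * (2 * ε * L ^ 4) := by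
          apply mul_le_mul_of_nonneg_left _ hC2.le
          have : 2 * ε * L * M ^ 3 ≤ 2 * ε * L * L ^ 3 :=
            mul_le_mul_of_nonneg_left hM3L (by positivity)
          calc 2 * ε * L * M ^ 3 ≤ 2 * ε * L * L ^ 3 := this
            _ = 2 * ε * L ^ 4 := by ring
        have q5 : C2 * lam ^ 3 * (ε * L * (2 * s ^ 2)) * s ≤ 1 * s := by
          rw [q3]; linarith
        have q6 := le_of_mul_le_mul_right q5 hs0
        linarith
      have h4 : (cf q - ε) * (2 * ((a : ℝ) + 1)) * lam ^ 3 = 2 * ((a:ℝ)+1) * (cf q * lam ^ 3) -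
          2 * ε * M ^ 3 := by rw [← hM3]; ring
      rw [h4, hE0]
      have h5 : ε * (L ^ 3 / 8) ≤ ε * M ^ 3 := mul_le_mul_of_nonneg_left hM3L' hε.le
      linarith
    · push Not at hjn
      by_cases hjf : (j : ℝ) * w ≤ δ * ((a : ℝ) + 1)
      · -- middle windows
        have h1 := hES1 lam hlam0 hlamδ a w j ha1 hwn hwδ hjw hjf
        refine le_trans (mul_le_mul' hR h1) ?_
        rw [prod_ex E0]
        refine mul_le_mul' le_rfl (ENNReal.ofReal_le_ofReal ?_)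
        simp only [b, if_neg (not_le.2 hjn)]
        have h2 : 6 * Real.exp G * (Real.exp (-(c / 8 * L))) ^ j ≤
            0 + 6 * Real.exp G * (Real.exp (-(c / 8 * L))) ^ j + fr := by linarith
        refine le_trans ?_ h2
        rw [mul_assoc 6 (Real.exp G), ← Real.exp_nat_mul, ← Real.exp_add]
        refine mul_le_mul_of_nonneg_left (Real.exp_le_exp.2 ?_) (by norm_num)
        rw [← hs]
        -- J = j w
        obtain ⟨J, hJ⟩ : ∃ J : ℝ, J = (j : ℝ) * w := ⟨_, rfl⟩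
        rw [← hJ]
        have hj1 : (1:ℝ) ≤ j := by
          have : (0:ℝ) < j := lt_of_le_of_lt (by positivity) hjn
          have h3 : 0 < j := by exact_mod_cast this
          exact_mod_cast h3
        have hJs : (j : ℝ) * s ^ 2 ≤ J := by
          rw [hJ]; exact mul_le_mul_of_nonneg_left hw1 hj0
        have hJpos : 0 ≤ J := by rw [hJ]; exact hJ0
        have hJL : ε * L * s ^ 2 ≤ J := by
          refine le_trans ?_ hJs
          exact mul_le_mul_of_nonneg_right hjn.le (by positivity)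
        -- lam J^2 / l in terms of M
        have hdiv : lam * J ^ 2 / ((a : ℝ) + 1) = M * (J / s ^ 2) ^ 2 := by
          rw [← es3, hM]; field_simp
        obtain ⟨t, ht⟩ : ∃ t : ℝ, t = J / s ^ 2 := ⟨_, rfl⟩
        have htJ : J = t * s ^ 2 := by rw [ht]; field_simp
        have hjt : (j : ℝ) ≤ t := by rw [ht, le_div_iff₀ (by positivity)]; exact hJs
        have hLt : ε * L ≤ t := le_trans hjn.le hjt
        have ht0 : 0 ≤ t := le_trans hj0 hjt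
        obtain ⟨p1, p2, p3, p4, p5⟩ := mid_real C2 lam J c M t s L ε j hC2 hc hs0 hM hMpos hMa hMb
          hε htJ hLt hj1 hjt m4
        have p6 : C1 * lam * ((w : ℝ) ^ 2 / ((a : ℝ) + 1) + s) ≤ 5 * C1 * L := by
          have : C1 * (lam * ((w : ℝ) ^ 2 / ((a : ℝ) + 1) + s)) ≤ C1 * (5 * L) :=
            mul_le_mul_of_nonneg_left (by linarith) hC1.le
          linarith
        have p7 : c * lam * J ^ 2 / ((a : ℝ) + 1) = c * (M * t ^ 2) := by
          have : c * lam * J ^ 2 / ((a : ℝ) + 1) = c * (lam * J ^ 2 / ((a : ℝ) + 1)) := by ring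
          rw [this, hdiv, ← ht]
        have p8 : (cf q + c * ε ^ 2 / 16) * (2 * ((a : ℝ) + 1)) * lam ^ 3 =
            2 * ((a:ℝ)+1) * (cf q * lam ^ 3) + 2 * (c * ε ^ 2 / 16) * M ^ 3 := by
          rw [← hM3]; ring
        rw [p7, p8, hE0, hG]
        linarith
      · -- far windows
        push Not at hjf
        have h1 := hEU lam hlam0 hlaml3 a w j hwn hw34 hjw
        refine le_trans (mul_le_mul' hR h1) ?_
        rw [prod_ex E0]
        refine mul_le_mul' le_rfl (ENNReal.ofReal_le_ofReal ?_)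
        simp only [b, if_neg (not_le.2 hjn)]
        have h2 : fr ≤ 0 + 6 * Real.exp G * (Real.exp (-(c / 8 * L))) ^ j + fr := by linarith
        refine le_trans ?_ h2
        rw [hfr]
        refine mul_le_mul_of_nonneg_left (Real.exp_le_exp.2 ?_) (by norm_num)
        rw [← hs]
        obtain ⟨J, hJ⟩ : ∃ J : ℝ, J = (j : ℝ) * w := ⟨_, rfl⟩
        rw [← hJ]
        rw [← hJ] at hjf hjwr hJ0
        have r1 : C2 * lam ^ 3 * J ≤ C2 * L ^ 3 := by
          have : C2 * (lam ^ 3 * J) ≤ C2 * M ^ 3 := by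
            apply mul_le_mul_of_nonneg_left _ hC2.le
            rw [← hM3, mul_comm]
            exact mul_le_mul_of_nonneg_right (by linarith) (by positivity)
          have r2 : C2 * M ^ 3 ≤ C2 * L ^ 3 := mul_le_mul_of_nonneg_left hM3L hC2.le
          linarith
        have r2 : c3 * (L / 2) * δ ^ 2 * s ≤ c3 * lam * J ^ 2 / ((a : ℝ) + 1) :=
          far_real c3 lam δ J M L s ((a : ℝ) + 1) hc3 hlam0 hδ hlpos m1 es3 hM hMpos hMa hjf.le
        have r3 : C3 * lam * ((w : ℝ) ^ 2 / ((a : ℝ) + 1) + s) ≤ 5 * C3 * L := by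
          have : C3 * (lam * ((w : ℝ) ^ 2 / ((a : ℝ) + 1) + s)) ≤ C3 * (5 * L) :=
            mul_le_mul_of_nonneg_left (by linarith) hC3.le
          linarith
        have r4 : C3 * ((a : ℝ) + 1) * lam ^ 3 ≤ C3 * L ^ 3 := by
          have : C3 * (((a : ℝ) + 1) * lam ^ 3) ≤ C3 * L ^ 3 := by
            rw [hM3]; exact mul_le_mul_of_nonneg_left hM3L hC3.le
          linarith
        have r5 : 0 ≤ 2 * ((a : ℝ) + 1) * (cf q * lam ^ 3) := by positivity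
        rw [hE0, hA]
        linarith
  -- summation
  have hsum : ∑ j ∈ Finset.range (a / w + 1), b j ≤ 3 / 8 := by
    have e : ∑ j ∈ Finset.range (a / w + 1), b j =
        ∑ j ∈ Finset.range (a / w + 1), (if (j : ℝ) ≤ ε * L then nr else 0) +
        6 * Real.exp G * ∑ j ∈ Finset.range (a / w + 1), (Real.exp (-(c / 8 * L))) ^ j +
        ((a / w + 1 : ℕ) : ℝ) * fr := by
      simp only [b]
      rw [Finset.sum_add_distrib, Finset.sum_add_distrib, Finset.mul_sum, Finset.sum_const,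
        Finset.card_range, nsmul_eq_mul]
    rw [e]
    have s1 := near_sum (a / w + 1) (ε * L) nr (by positivity) hnr0
    have s2 := geo_sum (Real.exp (-(c / 8 * L))) (Real.exp_pos _).le n3 (a / w + 1)
    have s3 : ((a / w + 1 : ℕ) : ℝ) * fr ≤ 1 / 8 := by
      have t1 : ((a / w + 1 : ℕ) : ℝ) ≤ s ^ 3 := by
        rw [es3]
        have : a / w + 1 ≤ a + 1 := Nat.succ_le_succ (Nat.div_le_self a w)
        exact_mod_cast this
      have t2 : ((a / w + 1 : ℕ) : ℝ) * fr ≤ s ^ 3 * fr := mul_le_mul_of_nonneg_right t1 hfr0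
      rw [hfr] at t2 ⊢
      linarith
    have s4 : 6 * Real.exp G * ∑ j ∈ Finset.range (a / w + 1), (Real.exp (-(c / 8 * L))) ^ j ≤
        1 / 8 := by
      have : 6 * Real.exp G * ∑ j ∈ Finset.range (a / w + 1), (Real.exp (-(c / 8 * L))) ^ j ≤
          6 * Real.exp G * 2 := mul_le_mul_of_nonneg_left s2 (by positivity)
      rw [← hG] at n2
      linarith
    rw [← hnr] at n1
    linarith
  have hfinal : ex E0 ≤ ex E0 * ENNReal.ofReal (3 / 4) := by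
    have t1 := hMG lam hlam0 hlaml1 a
    rw [← hE0] at t1
    have t2 := h_WIN q (√q * Real.exp (-(lam / 2))) lam hlam0.le w a a hwn
    calc ex E0 ≤ 2 * ∫⁻ x, ex (lam * (Gh x.1 x.2 0 a a : ℝ))
          ∂(PW (√q * Real.exp (-(lam / 2))) q) := t1
      _ ≤ 2 * ∑ j ∈ Finset.range (a / w + 1),
          ES q (√q * Real.exp (-(lam / 2))) lam w j * EL q lam w j a a := by gcongr
      _ ≤ 2 * ∑ j ∈ Finset.range (a / w + 1), ex E0 * ENNReal.ofReal (b j) := by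
          exact mul_le_mul' le_rfl (Finset.sum_le_sum fun j hj => key j hj)
      _ = 2 * (ex E0 * ENNReal.ofReal (∑ j ∈ Finset.range (a / w + 1), b j)) := by
          rw [← Finset.mul_sum, ENNReal.ofReal_sum_of_nonneg (fun j _ => hb0 j)]
      _ ≤ 2 * (ex E0 * ENNReal.ofReal (3 / 8)) := by gcongr
      _ = ex E0 * ENNReal.ofReal (3 / 4) := by
          have : ENNReal.ofReal (3 / 4) = 2 * ENNReal.ofReal (3 / 8) := by
            have h2 : (2 : ℝ≥0∞) = ENNReal.ofReal 2 := by norm_num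
            rw [h2, ← ENNReal.ofReal_mul (by norm_num)]; norm_num
          rw [this]; ring
  unfold ex at hfinal
  rw [← ENNReal.ofReal_mul (Real.exp_pos _).le,
    ENNReal.ofReal_le_ofReal_iff (by positivity)] at hfinal
  have := Real.exp_pos E0
  linarith

end Pool.Agent.H7.GL
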